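import Pool.Agent.Helper14.CV.StD

/-!
# Project CV, module EX: every solution of the relation comes from a symbol
-/

set_option autoImplicit false

namespace Pool.Agent.Helper36.CV

open Pool.Agent.Helper14.CV

/-! ### units -/

private theorem unit_odd (r : ℕ) (a : ℤ) (ha : a % 2 = 1) : IsUnit ((a : ℤ) : ZMod (2 ^ r)) := by
  rw [ZMod.coe_int_isUnit_iff_isCoprime]
  push_cast
  apply IsCoprime.pow_left
  rw [Int.isCoprime_iff_gcd_eq_one]
  have h1 : (Int.gcd 2 a) ∣ 2 := by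
    have := Int.gcd_dvd_left (a := 2) (b := a)
    exact_mod_cast this
  have h2 : ((Int.gcd 2 a : ℕ) : ℤ) ∣ a := Int.gcd_dvd_right 2 a
  rcases (Nat.dvd_prime Nat.prime_two).1 h1 with h | h
  · exact h
  · exfalso
    rw [h] at h2
    have := Int.emod_eq_zero_of_dvd h2
    push_cast at this
    omega

private theorem unit_four (r : ℕ) [NeZero (2 ^ r)] (t : ℤ) (y : ZMod (2 ^ r)) :
    IsUnit (1 + 4 * (t : ZMod (2 ^ r)) * y) := by
  have h : 1 + 4 * (t : ZMod (2 ^ r)) * y =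
      ((1 + 4 * (t * (y.val : ℤ)) : ℤ) : ZMod (2 ^ r)) := by
    push_cast
    rw [ZMod.natCast_zmod_val]
    ring
  rw [h]
  exact unit_odd r _ (by omega)

/-! ### plane coordinates -/

private theorem pl_det {q q' : ℕ} {a b c d : ℤ} {x : ZMod q} {y : ZMod q'}
    (h : Pl 1 a b c d x y) : a * d - 4 * (b * c) = 1 := by
  linear_combination h.1

private theorem odd_of {a b c d : ℤ} (h : a * d - 4 * (b * c) = 1) : a % 2 = 1 ∧ d % 2 = 1 := by
  constructor
  · rcases Int.emod_two_eq_zero_or_one a with ha | ha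
    · exfalso
      obtain ⟨k, rfl⟩ := Int.dvd_of_emod_eq_zero ha
      have : 2 * (k * d) - 4 * (b * c) = 1 := by linear_combination h
      omega
    · exact ha
  · rcases Int.emod_two_eq_zero_or_one d with ha | ha
    · exfalso
      obtain ⟨k, rfl⟩ := Int.dvd_of_emod_eq_zero ha
      have : 2 * (a * k) - 4 * (b * c) = 1 := by linear_combination h
      omega
    · exact ha

private theorem pl_odd {q q' : ℕ} {a b c d : ℤ} {x : ZMod q} {y : ZMod q'}
    (h : Pl 1 a b c d x y) : a % 2 = 1 ∧ d % 2 = 1 := odd_of (pl_det h)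

private theorem pl_mk (r s : ℕ) {a b c d : ℤ} (h : a * d - 4 * (b * c) = 1) :
    ∃ (x : ZMod (2 ^ r)) (y : ZMod (2 ^ s)), Pl 1 a b c d x y := by
  obtain ⟨ha, hd⟩ := odd_of h
  refine ⟨(b : ZMod (2 ^ r)) * (a : ZMod (2 ^ r))⁻¹, (c : ZMod (2 ^ s)) * (d : ZMod (2 ^ s))⁻¹,
    by linear_combination h, ?_, ?_⟩
  · rw [mul_assoc, ZMod.inv_mul_of_unit _ (unit_odd r a ha), mul_one]
  · rw [mul_assoc, ZMod.inv_mul_of_unit _ (unit_odd s d hd), mul_one]

private theorem pl_neg {q q' : ℕ} {a b c d : ℤ} {x : ZMod q} {y : ZMod q'}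
    (h : Pl 1 a b c d x y) : Pl 1 (-a) (-b) (-c) (-d) x y := by
  obtain ⟨h1, h2, h3⟩ := h
  refine ⟨by linear_combination h1, ?_, ?_⟩
  · push_cast
    linear_combination -h2
  · push_cast
    linear_combination -h3

private theorem pl_A {r s : ℕ} {a b c d : ℤ} {x : ZMod (2 ^ r)} {y : ZMod (2 ^ s)}
    (h : Pl 1 a b c d x y) :
    Pl 1 a (a + b) c (4 * c + d) (x + ((1 : ℤ) : ZMod (2 ^ r)))
      (y * (1 + 4 * ((1 : ℤ) : ZMod (2 ^ s)) * y)⁻¹) := by
  obtain ⟨h1, h2, h3⟩ := h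
  have hne : NeZero (2 ^ s) := ⟨by positivity⟩
  have hu := ZMod.inv_mul_of_unit _ (unit_four s 1 y)
  refine ⟨by linear_combination h1, ?_, ?_⟩
  · push_cast
    linear_combination h2
  · have e : ((4 * c + d : ℤ) : ZMod (2 ^ s)) =
        (1 + 4 * ((1 : ℤ) : ZMod (2 ^ s)) * y) * (d : ZMod (2 ^ s)) := by
      push_cast
      linear_combination 4 * h3
    rw [e, h3]
    linear_combination (-(y * (d : ZMod (2 ^ s)))) * hu

private theorem pl_B {r s : ℕ} {a b c d : ℤ} {x : ZMod (2 ^ r)} {y : ZMod (2 ^ s)}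
    (h : Pl 1 a b c d x y) :
    Pl 1 (a - 4 * b) b (c - d) d (x * (1 + 4 * ((-1 : ℤ) : ZMod (2 ^ r)) * x)⁻¹)
      (y + ((-1 : ℤ) : ZMod (2 ^ s))) := by
  obtain ⟨h1, h2, h3⟩ := h
  have hne : NeZero (2 ^ r) := ⟨by positivity⟩
  have hu := ZMod.inv_mul_of_unit _ (unit_four r (-1) x)
  refine ⟨by linear_combination h1, ?_, ?_⟩
  · have e : ((a - 4 * b : ℤ) : ZMod (2 ^ r)) =
        (1 + 4 * ((-1 : ℤ) : ZMod (2 ^ r)) * x) * (a : ZMod (2 ^ r)) := by
      push_cast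
      linear_combination -4 * h2
    rw [e, h2]
    linear_combination (-(x * (a : ZMod (2 ^ r)))) * hu
  · push_cast
    linear_combination h3

private theorem pl_gam {r s : ℕ} {a b c d : ℤ} {x : ZMod (2 ^ r)} {y : ZMod (2 ^ s)}
    (h : Pl 1 a b c d x y) {α β γ δ : ℤ} (hg : α * δ - (2 ^ (r + 1) * β) * (2 ^ (s + 1) * γ) = 1) :
    Pl 1 (α * a + 2 ^ (r + 1) * β * (2 * c)) (α * b + 2 ^ r * β * d)
      (2 ^ s * γ * a + δ * c) (2 ^ (s + 1) * γ * (2 * b) + δ * d) x y := by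
  obtain ⟨h1, h2, h3⟩ := h
  have z1 : ((2 : ℤ) ^ r : ZMod (2 ^ r)) = 0 := by
    have := ZMod.natCast_self (2 ^ r)
    push_cast at this ⊢
    exact this
  have z2 : ((2 : ℤ) ^ s : ZMod (2 ^ s)) = 0 := by
    have := ZMod.natCast_self (2 ^ s)
    push_cast at this ⊢
    exact this
  refine ⟨?_, ?_, ?_⟩
  · have e : (α * a + 2 ^ (r + 1) * β * (2 * c)) * (2 ^ (s + 1) * γ * (2 * b) + δ * d) -
        2 ^ (1 + 1) * (α * b + 2 ^ r * β * d) * (2 ^ s * γ * a + δ * c) =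
        (α * δ - (2 ^ (r + 1) * β) * (2 ^ (s + 1) * γ)) * (a * d - 2 ^ (1 + 1) * b * c) := by
      ring
    rw [e, hg, h1, one_mul]
  · push_cast at z1 ⊢
    rw [pow_succ, z1, h2]
    ring
  · push_cast at z2 ⊢
    rw [pow_succ, z2, h3]
    ring

/-! ### the function on the edges -/

private noncomputable def PX (r : ℕ) (a b : ℤ) : ZMod (2 ^ r) :=
  ((b / 2 : ℤ) : ZMod (2 ^ r)) * ((a : ℤ) : ZMod (2 ^ r))⁻¹

private theorem px_eq {r : ℕ} {a b : ℤ} {x : ZMod (2 ^ r)} (ha : a % 2 = 1)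
    (h : (b : ZMod (2 ^ r)) = x * a) : PX r a (2 * b) = x := by
  unfold PX
  have e : 2 * b / 2 = b := by omega
  rw [e, h, mul_assoc, ZMod.mul_inv_of_unit _ (unit_odd r a ha), mul_one]

section

variable {R : Type} [AddCommGroup R] {r s : ℕ} (F1 F3 : ZMod (2 ^ r) → ZMod (2 ^ s) → R)

private noncomputable def E0 (a b c d : ℤ) : R :=
  if b % 2 = 0 then
    if c % 2 = 0 then F1 (PX r a b) (PX s d c)
    else F3 (PX r (a - b) b) (PX s d (c - d))
  else F1 (PX r a (b - a)) (PX s (d - c) c) - F3 (PX r a (b - a)) (PX s (d - c) c)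

private noncomputable def EE (a b c d : ℤ) : R :=
  if a % 2 = 1 ∧ d % 2 = 1 then E0 F1 F3 a b c d else -E0 F1 F3 b (-a) d (-c)

variable {F1 F3}

private theorem ee1 {a b c d : ℤ} {x : ZMod (2 ^ r)} {y : ZMod (2 ^ s)} (h : Pl 1 a b c d x y) :
    EE F1 F3 a (2 * b) (2 * c) d = F1 x y := by
  obtain ⟨ha, hd⟩ := pl_odd h
  unfold EE E0
  rw [if_pos ⟨ha, hd⟩, if_pos (by omega), if_pos (by omega), px_eq ha h.2.1, px_eq hd h.2.2]

private theorem ee2 {a b c d : ℤ} {x : ZMod (2 ^ r)} {y : ZMod (2 ^ s)} (h : Pl 1 a b c d x y) :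
    EE F1 F3 a (a + 2 * b) (2 * c) (2 * c + d) = F1 x y - F3 x y := by
  obtain ⟨ha, hd⟩ := pl_odd h
  unfold EE E0
  have e1 : a + 2 * b - a = 2 * b := by ring
  have e2 : 2 * c + d - 2 * c = d := by ring
  rw [if_pos ⟨ha, by omega⟩, if_neg (by omega), e1, e2, px_eq ha h.2.1, px_eq hd h.2.2]

private theorem ee3 {a b c d : ℤ} {x : ZMod (2 ^ r)} {y : ZMod (2 ^ s)} (h : Pl 1 a b c d x y) :
    EE F1 F3 (a + 2 * b) (2 * b) (2 * c + d) d = F3 x y := by
  obtain ⟨ha, hd⟩ := pl_odd h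
  unfold EE E0
  have e1 : a + 2 * b - 2 * b = a := by ring
  have e2 : 2 * c + d - d = 2 * c := by ring
  rw [if_pos ⟨by omega, hd⟩, if_pos (by omega), if_neg (by omega), e1, e2, px_eq ha h.2.1,
    px_eq hd h.2.2]

/-- the three good classes -/
private def Good (a b c d : ℤ) : Prop :=
  ∃ a' b' c' d' : ℤ, a' * d' - 4 * (b' * c') = 1 ∧
    ((a = a' ∧ b = 2 * b' ∧ c = 2 * c' ∧ d = d') ∨
      (a = a' ∧ b = a' + 2 * b' ∧ c = 2 * c' ∧ d = 2 * c' + d') ∨
      (a = a' + 2 * b' ∧ b = 2 * b' ∧ c = 2 * c' + d' ∧ d = d'))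

private theorem good_of {a b c d : ℤ} (h : a * d - b * c = 1) (ha : a % 2 = 1)
    (hd : d % 2 = 1) : Good a b c d := by
  by_cases hb : b % 2 = 0
  · obtain ⟨b', rfl⟩ := Int.dvd_of_emod_eq_zero hb
    by_cases hc : c % 2 = 0
    · obtain ⟨c', rfl⟩ := Int.dvd_of_emod_eq_zero hc
      exact ⟨a, b', c', d, by linear_combination h, Or.inl ⟨rfl, rfl, rfl, rfl⟩⟩
    · obtain ⟨c', hc'⟩ : ∃ c', c = 2 * c' + d := ⟨(c - d) / 2, by omega⟩
      subst hc'
      exact ⟨a - 2 * b', b', c', d, by linear_combination h,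
        Or.inr (Or.inr ⟨by ring, rfl, rfl, rfl⟩)⟩
  · have hc : c % 2 = 0 := by
      by_contra hc
      have h1 : (a * d - b * c) % 2 = 0 := by
        obtain ⟨a', rfl⟩ : ∃ a', a = 2 * a' + 1 := ⟨a / 2, by omega⟩
        obtain ⟨b', rfl⟩ : ∃ b', b = 2 * b' + 1 := ⟨b / 2, by omega⟩
        obtain ⟨c', rfl⟩ : ∃ c', c = 2 * c' + 1 := ⟨c / 2, by omega⟩
        obtain ⟨d', rfl⟩ : ∃ d', d = 2 * d' + 1 := ⟨d / 2, by omega⟩
        have e : (2 * a' + 1) * (2 * d' + 1) - (2 * b' + 1) * (2 * c' + 1) =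
          2 * (2 * (a' * d') + a' + d' - 2 * (b' * c') - b' - c') := by ring
        rw [e]
        omega
      rw [h] at h1
      omega
    obtain ⟨c', rfl⟩ := Int.dvd_of_emod_eq_zero hc
    obtain ⟨b', hb'⟩ : ∃ b', b = a + 2 * b' := ⟨(b - a) / 2, by omega⟩
    subst hb'
    exact ⟨a, b', c', d - 2 * c', by linear_combination h,
      Or.inr (Or.inl ⟨rfl, rfl, rfl, by ring⟩)⟩

private theorem odd_bc {a b c d : ℤ} (h : a * d - b * c = 1) (h2 : ¬ (a % 2 = 1 ∧ d % 2 = 1)) :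
    b % 2 = 1 ∧ c % 2 = 1 := by
  have h3 : ∃ k, a * d = 2 * k := by
    by_cases ha : a % 2 = 1
    · have hd : d % 2 = 0 := by
        have : ¬ d % 2 = 1 := fun hd => h2 ⟨ha, hd⟩
        omega
      obtain ⟨k, rfl⟩ := Int.dvd_of_emod_eq_zero hd
      exact ⟨a * k, by ring⟩
    · obtain ⟨k, rfl⟩ := Int.dvd_of_emod_eq_zero (by omega : a % 2 = 0)
      exact ⟨k * d, by ring⟩
  obtain ⟨k, hk⟩ := h3
  constructor
  · by_contra hb
    obtain ⟨l, rfl⟩ := Int.dvd_of_emod_eq_zero (by omega : b % 2 = 0)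
    have : 2 * k - 2 * (l * c) = 1 := by linear_combination h - hk
    omega
  · by_contra hb
    obtain ⟨l, rfl⟩ := Int.dvd_of_emod_eq_zero (by omega : c % 2 = 0)
    have : 2 * k - 2 * (b * l) = 1 := by linear_combination h - hk
    omega

private theorem good_neg {a b c d : ℤ} (h : Good a b c d) :
    EE F1 F3 (-a) (-b) (-c) (-d) = EE F1 F3 a b c d := by
  obtain ⟨a', b', c', d', hdet, hcase⟩ := h
  obtain ⟨x, y, hp⟩ := pl_mk r s hdet
  rcases hcase with ⟨rfl, rfl, rfl, rfl⟩ | ⟨rfl, rfl, rfl, rfl⟩ | ⟨rfl, rfl, rfl, rfl⟩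
  · rw [ee1 hp]
    have := ee1 (F1 := F1) (F3 := F3) (pl_neg hp)
    rw [← this]
    congr 1 <;> ring
  · rw [ee2 hp]
    have := ee2 (F1 := F1) (F3 := F3) (pl_neg hp)
    rw [← this]
    congr 1 <;> ring
  · rw [ee3 hp]
    have := ee3 (F1 := F1) (F3 := F3) (pl_neg hp)
    rw [← this]
    congr 1 <;> ring

/-- orientation -/
private theorem ee_S {a b c d : ℤ} (h : a * d - b * c = 1) :
    EE F1 F3 b (-a) d (-c) = -EE F1 F3 a b c d := by
  by_cases hg : a % 2 = 1 ∧ d % 2 = 1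
  · have hG := good_of h hg.1 hg.2
    rw [← good_neg hG]
    have hbc : ¬ (b % 2 = 1 ∧ (-c) % 2 = 1) := by
      rintro ⟨hb, hc⟩
      have h1 : (a * d - b * c) % 2 = 0 := by
        obtain ⟨a', rfl⟩ : ∃ a', a = 2 * a' + 1 := ⟨a / 2, by omega⟩
        obtain ⟨b', rfl⟩ : ∃ b', b = 2 * b' + 1 := ⟨b / 2, by omega⟩
        obtain ⟨c', rfl⟩ : ∃ c', c = 2 * c' + 1 := ⟨c / 2, by omega⟩
        obtain ⟨d', rfl⟩ : ∃ d', d = 2 * d' + 1 := ⟨d / 2, by omega⟩
        have e : (2 * a' + 1) * (2 * d' + 1) - (2 * b' + 1) * (2 * c' + 1) =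
          2 * (2 * (a' * d') + a' + d' - 2 * (b' * c') - b' - c') := by ring
        rw [e]
        omega
      rw [h] at h1
      omega
    unfold EE
    rw [if_neg hbc, if_pos (by omega)]
  · obtain ⟨hb, hc⟩ := odd_bc h hg
    unfold EE
    rw [if_pos ⟨hb, by omega⟩, if_neg hg, neg_neg]

private theorem ee_neg {a b c d : ℤ} (h : a * d - b * c = 1) :
    EE F1 F3 (-a) (-b) (-c) (-d) = EE F1 F3 a b c d := by
  by_cases hg : a % 2 = 1 ∧ d % 2 = 1
  · exact good_neg (good_of h hg.1 hg.2)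
  · obtain ⟨hb, hc⟩ := odd_bc h hg
    have h1 : EE F1 F3 b (-a) d (-c) = -EE F1 F3 a b c d := ee_S h
    have h2 := ee_S (F1 := F1) (F3 := F3) (a := -a) (b := -b) (c := -c) (d := -d)
      (by linear_combination h)
    have h3 := good_neg (F1 := F1) (F3 := F3)
      (good_of (a := b) (b := -a) (c := d) (d := -c) (by linear_combination h) hb (by omega))
    rw [h3, h1] at h2
    exact (neg_injective h2).symm

private def Tri (F1 F3 : ZMod (2 ^ r) → ZMod (2 ^ s) → R) (a b c d : ℤ) : Prop :=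
  EE F1 F3 a b c d = EE F1 F3 a (a + b) c (c + d) + EE F1 F3 (a + b) b (c + d) d

private theorem tri_rot {a b c d : ℤ} (h : a * d - b * c = 1)
    (ht : Tri F1 F3 (a + b) (-a) (c + d) (-c)) : Tri F1 F3 a b c d := by
  unfold Tri at ht ⊢
  have e1 : a + b + -a = b := by ring
  have e2 : c + d + -c = d := by ring
  rw [e1, e2, ee_S h, ee_S (a := a) (b := a + b) (c := c) (d := c + d)
    (by linear_combination h)] at ht
  rw [eq_add_neg_iff_add_eq] at ht
  rw [← ht]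
  abel

private theorem tri_I {a b c d : ℤ} (h : a * d - 4 * (b * c) = 1) :
    Tri F1 F3 a (2 * b) (2 * c) d := by
  obtain ⟨x, y, hp⟩ := pl_mk r s h
  unfold Tri
  rw [ee1 hp, ee2 hp, ee3 hp]
  abel

private theorem tri_T (hR : Rel F1 F3) {a b c d : ℤ} (h : a * d - 4 * (b * c) = 1) :
    Tri F1 F3 a (a + 2 * b) (2 * c) (2 * c + d) := by
  obtain ⟨x, y, hp⟩ := pl_mk r s h
  have hA := pl_A hp
  have hB := pl_neg (pl_B hA)
  have h1 := ee1 (F1 := F1) (F3 := F3) hA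
  have h3 := ee3 (F1 := F1) (F3 := F3) hB
  have e1 : EE F1 F3 a (a + (a + 2 * b)) (2 * c) (2 * c + (2 * c + d)) =
      EE F1 F3 a (2 * (a + b)) (2 * c) (4 * c + d) := by
    congr 1 <;> ring
  have e3 : EE F1 F3 (a + 2 * b) (-(a + (a + 2 * b))) (2 * c + d) (-(2 * c + (2 * c + d))) =
      EE F1 F3 (-(a - 4 * (a + b)) + 2 * -(a + b)) (2 * -(a + b))
        (2 * -(c - (4 * c + d)) + -(4 * c + d)) (-(4 * c + d)) := by
    congr 1 <;> ring
  have hS := ee_S (F1 := F1) (F3 := F3) (a := a + (a + 2 * b)) (b := a + 2 * b)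
    (c := 2 * c + (2 * c + d)) (d := 2 * c + d) (by linear_combination h)
  rw [e3, h3] at hS
  have hr := hR x y
  unfold tA tB at hr
  unfold Tri
  rw [ee2 hp, e1, h1]
  have e5 : EE F1 F3 (a + (a + 2 * b)) (a + 2 * b) (2 * c + (2 * c + d)) (2 * c + d) =
      -F3 ((x + ((1 : ℤ) : ZMod (2 ^ r))) *
        (1 + 4 * ((-1 : ℤ) : ZMod (2 ^ r)) * (x + ((1 : ℤ) : ZMod (2 ^ r))))⁻¹)
        (y * (1 + 4 * ((1 : ℤ) : ZMod (2 ^ s)) * y)⁻¹ + ((-1 : ℤ) : ZMod (2 ^ s))) := by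
    rw [hS, neg_neg]
  rw [e5]
  have hr' := sub_eq_iff_eq_add.1 hr
  rw [hr']
  abel

private theorem tri_all (hR : Rel F1 F3) {a b c d : ℤ} (h : a * d - b * c = 1) :
    Tri F1 F3 a b c d := by
  have key : ∀ {a b c d : ℤ}, a * d - b * c = 1 → c % 2 = 0 → Tri F1 F3 a b c d := by
    intro a b c d h hc
    have hg : a % 2 = 1 ∧ d % 2 = 1 := by
      by_contra hcon
      have := (odd_bc h hcon).2
      omega
    obtain ⟨a', b', c', d', hdet, hcase⟩ := good_of h hg.1 hg.2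
    rcases hcase with ⟨rfl, rfl, rfl, rfl⟩ | ⟨rfl, rfl, rfl, rfl⟩ | ⟨rfl, rfl, rfl, rfl⟩
    · exact tri_I hdet
    · exact tri_T hR hdet
    · exfalso
      have := (odd_of hdet).2
      omega
  by_cases hc : c % 2 = 0
  · exact key h hc
  · by_cases hd : d % 2 = 0
    · -- `d` even: two rotations
      refine tri_rot h (tri_rot (by linear_combination h) (key (by linear_combination h) ?_))
      omega
    · -- `c + d` even: one rotation
      refine tri_rot h (key (by linear_combination h) ?_)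
      omega

/-! ### invariance -/

private theorem good_gam {α β γ δ : ℤ}
    (hg : α * δ - (2 ^ (r + 1) * β) * (2 ^ (s + 1) * γ) = 1) {a b c d : ℤ} (h : Good a b c d) :
    EE F1 F3 (α * a + 2 ^ (r + 1) * β * c) (α * b + 2 ^ (r + 1) * β * d)
      (2 ^ (s + 1) * γ * a + δ * c) (2 ^ (s + 1) * γ * b + δ * d) = EE F1 F3 a b c d := by
  obtain ⟨a', b', c', d', hdet, hcase⟩ := h
  obtain ⟨x, y, hp⟩ := pl_mk r s hdet
  have hq := pl_gam hp hg
  rcases hcase with ⟨rfl, rfl, rfl, rfl⟩ | ⟨rfl, rfl, rfl, rfl⟩ | ⟨rfl, rfl, rfl, rfl⟩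
  · rw [ee1 hp]
    have := ee1 (F1 := F1) (F3 := F3) hq
    rw [← this]
    congr 1 <;> ring
  · rw [ee2 hp]
    have := ee2 (F1 := F1) (F3 := F3) hq
    rw [← this]
    congr 1 <;> ring
  · rw [ee3 hp]
    have := ee3 (F1 := F1) (F3 := F3) hq
    rw [← this]
    congr 1 <;> ring

private theorem ee_gam {α β γ δ : ℤ}
    (hg : α * δ - (2 ^ (r + 1) * β) * (2 ^ (s + 1) * γ) = 1) {a b c d : ℤ}
    (h : a * d - b * c = 1) :
    EE F1 F3 (α * a + 2 ^ (r + 1) * β * c) (α * b + 2 ^ (r + 1) * β * d)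
      (2 ^ (s + 1) * γ * a + δ * c) (2 ^ (s + 1) * γ * b + δ * d) = EE F1 F3 a b c d := by
  by_cases hgd : a % 2 = 1 ∧ d % 2 = 1
  · exact good_gam hg (good_of h hgd.1 hgd.2)
  · obtain ⟨hb, hc⟩ := odd_bc h hgd
    have h3 := good_gam (F1 := F1) (F3 := F3) hg
      (good_of (a := b) (b := -a) (c := d) (d := -c) (by linear_combination h) hb (by omega))
    have hdet : (α * a + 2 ^ (r + 1) * β * c) * (2 ^ (s + 1) * γ * b + δ * d) -
        (α * b + 2 ^ (r + 1) * β * d) * (2 ^ (s + 1) * γ * a + δ * c) = 1 := by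
      linear_combination (a * d - b * c) * hg + h
    have h4 := ee_S (F1 := F1) (F3 := F3) hdet
    have e : EE F1 F3 (α * b + 2 ^ (r + 1) * β * d) (-(α * a + 2 ^ (r + 1) * β * c))
        (2 ^ (s + 1) * γ * b + δ * d) (-(2 ^ (s + 1) * γ * a + δ * c)) =
        EE F1 F3 (α * b + 2 ^ (r + 1) * β * d) (α * -a + 2 ^ (r + 1) * β * -c)
        (2 ^ (s + 1) * γ * b + δ * d) (2 ^ (s + 1) * γ * -a + δ * -c) := by
      congr 1 <;> ring
    rw [e, h3, ee_S h] at h4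
    exact (neg_injective h4).symm

end

theorem hEx (hFar : StFar) (hFex : StFex) (hPlA : StPlA) : StEx := by
  intro R _ r s F1 F3 hR
  obtain ⟨G, hGh, hG⟩ := hFex R inferInstance (EE F1 F3) (fun a b c d h =>
    ⟨ee_neg h, ee_S h, tri_all hR h⟩)
  refine ⟨G, ⟨hGh, ?_⟩, ?_, ?_⟩
  · intro α β' γ' δ hdet hβ hγ
    obtain ⟨β, rfl⟩ := hβ
    obtain ⟨γ, rfl⟩ := hγ
    have hdet0 : α * δ - 2 ^ (r + 1) * β * (2 ^ (s + 1) * γ) ≠ 0 := by
      rw [hdet]
      exact one_ne_zero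
    have hH : Homog (act α (2 ^ (r + 1) * β) (2 ^ (s + 1) * γ) δ G - G) := by
      rw [sub_eq_add_neg]
      exact (hGh.act hdet0).add hGh.neg
    obtain ⟨k, hk⟩ := hFar R inferInstance _ hH (by
      intro a b c d h
      have h1 := hG a b c d h
      have h2 := hG (α * a + 2 ^ (r + 1) * β * c) (α * b + 2 ^ (r + 1) * β * d)
        (2 ^ (s + 1) * γ * a + δ * c) (2 ^ (s + 1) * γ * b + δ * d)
        (by linear_combination (a * d - b * c) * hdet + h)
      rw [ee_gam hdet h, ← h1] at h2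
      show G (α * a + 2 ^ (r + 1) * β * c) (2 ^ (s + 1) * γ * a + δ * c) - G a c =
        G (α * b + 2 ^ (r + 1) * β * d) (2 ^ (s + 1) * γ * b + δ * d) - G b d
      have h3 := sub_eq_iff_eq_add.1 h2
      rw [h3]
      abel)
    refine ⟨k, fun p q hpq => ?_⟩
    have h4 := hk p q hpq
    have h5 : act α (2 ^ (r + 1) * β) (2 ^ (s + 1) * γ) δ G p q - G p q = k := by
      have h6 : (0 : ℤ → ℤ → R) p q = 0 := rfl
      rw [h6, zero_add] at h4
      exact h4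
    rw [sub_eq_iff_eq_add.1 h5, add_comm]
  · intro x y
    have hp := hPlA 1 r s x y
    have h1 := ee1 (F1 := F1) (F3 := F3) hp
    have hd := pl_det hp
    rw [← hG _ _ _ _ (by linear_combination hd)] at h1
    rw [← h1]
    unfold edgeF
    congr 1
    · congr 1 <;> ring
    · congr 1 <;> ring
  · intro x y
    have hp := hPlA 1 r s x y
    have h1 := ee3 (F1 := F1) (F3 := F3) hp
    have hd := pl_det hp
    rw [← hG _ _ _ _ (by linear_combination hd)] at h1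
    rw [← h1]
    unfold edgeF
    congr 1
    · congr 1 <;> ring
    · congr 1 <;> ring

end Pool.Agent.Helper36.CV
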